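import Mathlib

set_option autoImplicit false

/-!
# The image of the virtual integral Burau representation

We determine the image of the virtual integral Burau representation
`ρ_v : vB_n → GL_n(ℤ)`, for all `n = m + 1 ≥ 1`: it consists of all the matrices of `GL_n(ℤ)`
which fix the vector `(1, ..., 1)` and reduce modulo `2` to a permutation matrix.

The image contains the permutation matrices and the reflections `I - 2 e_i (e_i - e_j)ᵀ`, for all
`i ≠ j`. A matrix of the group described is first multiplied by a permutation matrix to be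
congruent to `I` modulo `2`, then its rows are reduced one by one to the rows of `I`, by a descent
on the sum of the absolute values of the entries.
-/

open Matrix

namespace Pool.Agent.Results.MP_e5baee_al.VirtualBurauImage

/-- The generators of the virtual braid group on `m + 1` strands: `sigma i` is a classical and
`tau i` a virtual crossing. (They are numbered by `0, ..., m - 1` instead of `1, ..., m`.) -/
inductive Gen (m : ℕ) : Type
  | sigma (i : Fin m) : Gen m
  | tau (i : Fin m) : Gen m

/-- The classical crossing `sigma i` in the free group on the generators. -/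
def sg {m : ℕ} (i : Fin m) : FreeGroup (Gen m) := FreeGroup.of (Gen.sigma i)

/-- The virtual crossing `tau i` in the free group on the generators. -/
def tu {m : ℕ} (i : Fin m) : FreeGroup (Gen m) := FreeGroup.of (Gen.tau i)

/-- The defining relators of the virtual braid group on `m + 1` strands. -/
inductive IsRelator (m : ℕ) : FreeGroup (Gen m) → Prop
  | sigma_braid (i j : Fin m) (h : (j : ℕ) = i + 1) :
      IsRelator m ((sg i * sg j * sg i) * (sg j * sg i * sg j)⁻¹)
  | sigma_far (i j : Fin m) (h : (i : ℕ) + 2 ≤ j ∨ (j : ℕ) + 2 ≤ i) :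
      IsRelator m ((sg i * sg j) * (sg j * sg i)⁻¹)
  | tau_sq (i : Fin m) : IsRelator m (tu i * tu i)
  | tau_braid (i j : Fin m) (h : (j : ℕ) = i + 1) :
      IsRelator m ((tu i * tu j * tu i) * (tu j * tu i * tu j)⁻¹)
  | tau_far (i j : Fin m) (h : (i : ℕ) + 2 ≤ j ∨ (j : ℕ) + 2 ≤ i) :
      IsRelator m ((tu i * tu j) * (tu j * tu i)⁻¹)
  | mixed_far (i j : Fin m) (h : (i : ℕ) + 2 ≤ j ∨ (j : ℕ) + 2 ≤ i) :
      IsRelator m ((sg i * tu j) * (tu j * sg i)⁻¹)
  | mixed_braid (i j : Fin m) (h : (j : ℕ) = i + 1) :
      IsRelator m ((tu i * tu j * sg i) * (sg j * tu i * tu j)⁻¹)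

/-- The virtual braid group on `m + 1` strands. -/
abbrev VB (m : ℕ) : Type := PresentedGroup {r | IsRelator m r}

/-- The block matrix `I_{i-1} ⊕ (a, b; c, d) ⊕ I_{n-i-1}` of size `n = m + 1`, where the rows and
the columns of the block `(a, b; c, d)` are the ones numbered `i` and `i + 1`. -/
def blk {m : ℕ} (i : Fin m) (a b c d : ℤ) : Matrix (Fin (m + 1)) (Fin (m + 1)) ℤ :=
  Matrix.of fun x y =>
    if x = i.castSucc ∧ y = i.castSucc then a
    else if x = i.castSucc ∧ y = i.succ then b
    else if x = i.succ ∧ y = i.castSucc then c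
    else if x = i.succ ∧ y = i.succ then d
    else if x = y then 1 else 0

theorem blk_mulVec {m : ℕ} (i : Fin m) (a b c d : ℤ) (v : Fin (m + 1) → ℤ) :
    blk i a b c d *ᵥ v = fun x =>
      if x = i.castSucc then a * v i.castSucc + b * v i.succ
      else if x = i.succ then c * v i.castSucc + d * v i.succ else v x := by
  have hne : i.castSucc ≠ i.succ := (Fin.castSucc_lt_succ).ne
  funext x
  simp only [mulVec, dotProduct, blk, of_apply]
  by_cases h1 : x = i.castSucc
  · subst h1
    simp only [hne, true_and, false_and, if_false, if_true]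
    have : ∀ y : Fin (m + 1), (if y = i.castSucc then a else if y = i.succ then b
        else if i.castSucc = y then 1 else 0) * v y
        = (if y = i.castSucc then a * v y else 0) + (if y = i.succ then b * v y else 0) := by
      intro y
      by_cases h1 : y = i.castSucc
      · subst h1; simp [hne]
      · by_cases h2 : y = i.succ
        · subst h2; simp [h1]
        · simp [h1, h2, Ne.symm h1]
    simp only [this, Finset.sum_add_distrib]
    simp
  · by_cases h2 : x = i.succ
    · subst h2
      simp only [hne.symm, true_and, false_and, if_false, if_true]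
      have : ∀ y : Fin (m + 1), (if y = i.castSucc then c else if y = i.succ then d
          else if i.succ = y then 1 else 0) * v y
          = (if y = i.castSucc then c * v y else 0) + (if y = i.succ then d * v y else 0) := by
        intro y
        by_cases h1 : y = i.castSucc
        · subst h1; simp [hne]
        · by_cases h2 : y = i.succ
          · subst h2; simp [h1]
          · simp [h1, h2, Ne.symm h2]
      simp only [this, Finset.sum_add_distrib]
      simp
    · simp [h1, h2]

theorem eq_of_mulVec {n : ℕ} {A B : Matrix (Fin n) (Fin n) ℤ} (h : ∀ v, A *ᵥ v = B *ᵥ v) :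
    A = B := Matrix.mulVec_injective (funext h)

theorem blk_mul_blk {m : ℕ} (i : Fin m) (a b c d a' b' c' d' : ℤ) :
    blk i a b c d * blk i a' b' c' d' =
      blk i (a * a' + b * c') (a * b' + b * d') (c * a' + d * c') (c * b' + d * d') := by
  have hne : i.castSucc ≠ i.succ := (Fin.castSucc_lt_succ).ne
  apply eq_of_mulVec
  intro v
  rw [← mulVec_mulVec]
  simp only [blk_mulVec]
  funext x
  by_cases h1 : x = i.castSucc
  · subst h1; simp [hne.symm]; ring
  · by_cases h2 : x = i.succ
    · subst h2; simp [hne.symm]; ring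
    · simp [h1, h2]

theorem blk_one {m : ℕ} (i : Fin m) : blk i 1 0 0 1 = 1 := by
  apply eq_of_mulVec
  intro v
  rw [blk_mulVec, one_mulVec]
  funext x
  by_cases h1 : x = i.castSucc
  · subst h1; simp
  · by_cases h2 : x = i.succ
    · subst h2; simp [(Fin.castSucc_lt_succ (i := i)).ne']
    · simp [h1, h2]

/-- The image `I_{i-1} ⊕ (2, -1; 1, 0) ⊕ I_{n-i-1}` of the classical crossing `sigma i`. -/
def sMat {m : ℕ} (i : Fin m) : GL (Fin (m + 1)) ℤ where
  val := blk i 2 (-1) 1 0
  inv := blk i 0 1 (-1) 2
  val_inv := by rw [blk_mul_blk]; norm_num [blk_one]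
  inv_val := by rw [blk_mul_blk]; norm_num [blk_one]

/-- The image `I_{i-1} ⊕ (0, 1; 1, 0) ⊕ I_{n-i-1}` of the virtual crossing `tau i`. -/
def tMat {m : ℕ} (i : Fin m) : GL (Fin (m + 1)) ℤ where
  val := blk i 0 1 1 0
  inv := blk i 0 1 1 0
  val_inv := by rw [blk_mul_blk]; norm_num [blk_one]
  inv_val := by rw [blk_mul_blk]; norm_num [blk_one]

/-- The images of the generators. -/
def genMat {m : ℕ} : Gen m → GL (Fin (m + 1)) ℤ
  | Gen.sigma i => sMat i
  | Gen.tau i => tMat i

theorem sMat_val {m : ℕ} (i : Fin m) : (sMat i).val = blk i 2 (-1) 1 0 := rfl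

theorem tMat_val {m : ℕ} (i : Fin m) : (tMat i).val = blk i 0 1 1 0 := rfl

theorem far_comm {m : ℕ} (i j : Fin m) (h : (i : ℕ) + 2 ≤ j ∨ (j : ℕ) + 2 ≤ i)
    (a b c d a' b' c' d' : ℤ) :
    blk i a b c d * blk j a' b' c' d' = blk j a' b' c' d' * blk i a b c d := by
  have h1 : i.castSucc ≠ i.succ := (Fin.castSucc_lt_succ).ne
  have h2 : j.castSucc ≠ j.succ := (Fin.castSucc_lt_succ).ne
  have h3 : i.castSucc ≠ j.castSucc := by
    intro e; have := congrArg Fin.val e; simp at this; omega
  have h4 : i.castSucc ≠ j.succ := by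
    intro e; have := congrArg Fin.val e; simp at this; omega
  have h5 : i.succ ≠ j.castSucc := by
    intro e; have := congrArg Fin.val e; simp at this; omega
  have h6 : i.succ ≠ j.succ := by
    intro e; have := congrArg Fin.val e; simp at this; omega
  apply eq_of_mulVec
  intro v
  rw [← mulVec_mulVec, ← mulVec_mulVec]
  simp only [blk_mulVec]
  funext x
  by_cases e1 : x = i.castSucc
  · subst e1; simp [h3, h4, h5, h6]
  · by_cases e2 : x = i.succ
    · subst e2; simp [h1.symm, h3, h4, h5, h6]
    · simp [e1, e2, h3.symm, h4.symm, h5.symm, h6.symm]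

theorem genMat_rel {m : ℕ} (r : FreeGroup (Gen m)) (hr : r ∈ {r | IsRelator m r}) :
    FreeGroup.lift genMat r = 1 := by
  have key : ∀ (A B : GL (Fin (m + 1)) ℤ), A.val = B.val → A * B⁻¹ = 1 := by
    intro A B h
    rw [Units.ext h, mul_inv_cancel]
  cases hr with
  | sigma_braid i j h =>
    simp only [map_mul, map_inv, sg, FreeGroup.lift_apply_of, genMat]
    apply key
    have h1 : i.castSucc ≠ i.succ := (Fin.castSucc_lt_succ).ne
    have h2 : j.castSucc ≠ j.succ := (Fin.castSucc_lt_succ).ne
    have h5 : i.succ = j.castSucc := by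
      apply Fin.ext; simp; omega
    have h4 : i.castSucc ≠ j.succ := by
      intro e; have := congrArg Fin.val e; simp at this; omega
    simp only [Units.val_mul, sMat_val]
    apply eq_of_mulVec
    intro v
    simp only [← mulVec_mulVec]
    simp only [blk_mulVec]
    rw [h5] at h1 ⊢
    funext x
    by_cases e1 : x = i.castSucc
    · subst e1; simp [h1, h1.symm, h2.symm, h4, h4.symm]; try ring
    · by_cases e2 : x = j.castSucc
      · subst e2; simp [h1, h1.symm, h2.symm, h4, h4.symm]; try ring
      · by_cases e3 : x = j.succ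
        · subst e3; simp [h1, h1.symm, h2.symm, h4, h4.symm]; try ring
        · simp [e1, e2, e3]
  | sigma_far i j h =>
    simp only [map_mul, map_inv, sg, FreeGroup.lift_apply_of, genMat]
    apply key
    simp only [Units.val_mul, sMat_val]
    exact far_comm i j h _ _ _ _ _ _ _ _
  | tau_sq i =>
    simp only [map_mul, tu, FreeGroup.lift_apply_of, genMat]
    apply Units.ext
    simp only [Units.val_mul, tMat_val, blk_mul_blk]
    norm_num [blk_one]
  | tau_braid i j h =>
    simp only [map_mul, map_inv, tu, FreeGroup.lift_apply_of, genMat]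
    apply key
    have h1 : i.castSucc ≠ i.succ := (Fin.castSucc_lt_succ).ne
    have h2 : j.castSucc ≠ j.succ := (Fin.castSucc_lt_succ).ne
    have h5 : i.succ = j.castSucc := by
      apply Fin.ext; simp; omega
    have h4 : i.castSucc ≠ j.succ := by
      intro e; have := congrArg Fin.val e; simp at this; omega
    simp only [Units.val_mul, tMat_val]
    apply eq_of_mulVec
    intro v
    simp only [← mulVec_mulVec]
    simp only [blk_mulVec]
    rw [h5] at h1 ⊢
    funext x
    by_cases e1 : x = i.castSucc
    · subst e1; simp [h1, h1.symm, h2.symm, h4, h4.symm]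
    · by_cases e2 : x = j.castSucc
      · subst e2; simp [h1, h1.symm, h2.symm, h4, h4.symm]
      · by_cases e3 : x = j.succ
        · subst e3; simp [h1, h1.symm, h2.symm, h4, h4.symm]
        · simp [e1, e2, e3]
  | tau_far i j h =>
    simp only [map_mul, map_inv, tu, FreeGroup.lift_apply_of, genMat]
    apply key
    simp only [Units.val_mul, tMat_val]
    exact far_comm i j h _ _ _ _ _ _ _ _
  | mixed_far i j h =>
    simp only [map_mul, map_inv, sg, tu, FreeGroup.lift_apply_of, genMat]
    apply key
    simp only [Units.val_mul, tMat_val, sMat_val]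
    exact far_comm i j h _ _ _ _ _ _ _ _
  | mixed_braid i j h =>
    simp only [map_mul, map_inv, sg, tu, FreeGroup.lift_apply_of, genMat]
    apply key
    have h1 : i.castSucc ≠ i.succ := (Fin.castSucc_lt_succ).ne
    have h2 : j.castSucc ≠ j.succ := (Fin.castSucc_lt_succ).ne
    have h5 : i.succ = j.castSucc := by
      apply Fin.ext; simp; omega
    have h4 : i.castSucc ≠ j.succ := by
      intro e; have := congrArg Fin.val e; simp at this; omega
    simp only [Units.val_mul, tMat_val, sMat_val]
    apply eq_of_mulVec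
    intro v
    simp only [← mulVec_mulVec]
    simp only [blk_mulVec]
    rw [h5] at h1 ⊢
    funext x
    by_cases e1 : x = i.castSucc
    · subst e1; simp [h1, h1.symm, h2.symm, h4, h4.symm]
    · by_cases e2 : x = j.castSucc
      · subst e2; simp [h1, h1.symm, h2.symm, h4, h4.symm]
      · by_cases e3 : x = j.succ
        · subst e3; simp [h1, h1.symm, h2.symm, h4, h4.symm]
        · simp [e1, e2, e3]

/-- The virtual integral Burau representation `vB_n → GL_n(ℤ)`, with `n = m + 1`. -/
def rhoV (m : ℕ) : VB m →* GL (Fin (m + 1)) ℤ := PresentedGroup.toGroup (f := genMat) genMat_rel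

/-! ### Permutation matrices -/

/-- The permutation matrix of `π`: its column `b` is the basis vector numbered `π b`. -/
def pM {n : ℕ} (π : Equiv.Perm (Fin n)) : Matrix (Fin n) (Fin n) ℤ :=
  Matrix.of fun a b => if a = π b then 1 else 0

theorem pM_mulVec {n : ℕ} (π : Equiv.Perm (Fin n)) (v : Fin n → ℤ) :
    pM π *ᵥ v = fun a => v (π.symm a) := by
  funext a
  simp only [mulVec, dotProduct, pM, of_apply]
  have : ∀ b, (if a = π b then (1 : ℤ) else 0) * v b = if b = π.symm a then v b else 0 := by
    intro b
    by_cases h : a = π b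
    · subst h; simp
    · have : b ≠ π.symm a := by
        rintro rfl; exact h (by simp)
      simp [h, this]
  simp [this]

/-- The permutation matrices. -/
def pG {n : ℕ} : Equiv.Perm (Fin n) →* GL (Fin n) ℤ where
  toFun π :=
    { val := pM π
      inv := pM π⁻¹
      val_inv := by
        apply eq_of_mulVec; intro v
        rw [← mulVec_mulVec, one_mulVec]; simp only [pM_mulVec]
        funext a; exact congrArg v (π.apply_symm_apply a)
      inv_val := by
        apply eq_of_mulVec; intro v
        rw [← mulVec_mulVec, one_mulVec]; simp only [pM_mulVec]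
        funext a; exact congrArg v (π.symm_apply_apply a) }
  map_one' := by
    apply Units.ext
    apply eq_of_mulVec; intro v
    simp only [pM_mulVec, Units.val_one, one_mulVec]
    funext a; rfl
  map_mul' π ρ := by
    apply Units.ext
    apply eq_of_mulVec; intro v
    simp only [Units.val_mul, ← mulVec_mulVec, pM_mulVec]
    funext a; congr 1

theorem pG_val {n : ℕ} (π : Equiv.Perm (Fin n)) : (pG π).val = pM π := rfl

theorem rhoV_sigma {m : ℕ} (i : Fin m) : rhoV m (PresentedGroup.of (Gen.sigma i)) = sMat i :=
  PresentedGroup.toGroup.of _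

theorem rhoV_tau {m : ℕ} (i : Fin m) : rhoV m (PresentedGroup.of (Gen.tau i)) = tMat i :=
  PresentedGroup.toGroup.of _

theorem tMat_eq {m : ℕ} (i : Fin m) : tMat i = pG (Equiv.swap i.castSucc i.succ) := by
  apply Units.ext
  rw [tMat_val, pG_val]
  apply eq_of_mulVec
  intro v
  rw [blk_mulVec, pM_mulVec]
  funext x
  by_cases h1 : x = i.castSucc
  · subst h1; simp
  · by_cases h2 : x = i.succ
    · subst h2; simp [(Fin.castSucc_lt_succ (i := i)).ne']
    · simp [h1, h2, Equiv.swap_apply_of_ne_of_ne]

theorem pG_mem {m : ℕ} (π : Equiv.Perm (Fin (m + 1))) : pG π ∈ (rhoV m).range := by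
  have h : (⊤ : Submonoid (Equiv.Perm (Fin (m + 1)))) ≤
      ((rhoV m).range.toSubmonoid).comap pG := by
    rw [← Equiv.Perm.mclosure_swap_castSucc_succ, Submonoid.closure_le]
    rintro _ ⟨i, rfl⟩
    exact ⟨_, (rhoV_tau i).trans (tMat_eq i)⟩
  exact h (Submonoid.mem_top π)

/-! ### The reflections `R i j` -/

/-- The matrix which is the identity except for the row `i`, which is `2 e_j - e_i`. -/
def rM {n : ℕ} (i j : Fin n) : Matrix (Fin n) (Fin n) ℤ :=
  Matrix.of fun a b =>
    if a = i then (if b = i then -1 else if b = j then 2 else 0) else if a = b then 1 else 0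

theorem rM_mulVec {n : ℕ} (i j : Fin n) (hij : i ≠ j) (v : Fin n → ℤ) :
    rM i j *ᵥ v = fun a => if a = i then - v i + 2 * v j else v a := by
  funext a
  simp only [mulVec, dotProduct, rM, of_apply]
  by_cases h : a = i
  · subst h
    have : ∀ b, (if a = a then (if b = a then (-1 : ℤ) else if b = j then 2 else 0)
        else if a = b then 1 else 0) * v b =
        (if b = a then - v b else 0) + (if b = j then 2 * v b else 0) := by
      intro b
      by_cases h1 : b = a
      · subst h1; simp [hij]
      · by_cases h2 : b = j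
        · subst h2; simp [h1]
        · simp [h1, h2]
    refine (Finset.sum_congr rfl (fun b _ => this b)).trans ?_
    simp [Finset.sum_add_distrib]
  · simp [h]

theorem rM_mul_self {n : ℕ} (i j : Fin n) (hij : i ≠ j) : rM i j * rM i j = 1 := by
  apply eq_of_mulVec
  intro v
  rw [← mulVec_mulVec, one_mulVec]
  simp only [rM_mulVec i j hij]
  funext a
  by_cases h : a = i
  · subst h; simp [hij.symm]
  · simp [h]

/-- The reflection `I - 2 e_i (e_i - e_j)ᵀ`. -/
def rG {n : ℕ} (i j : Fin n) (hij : i ≠ j) : GL (Fin n) ℤ where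
  val := rM i j
  inv := rM i j
  val_inv := rM_mul_self i j hij
  inv_val := rM_mul_self i j hij

theorem rG_val {n : ℕ} (i j : Fin n) (hij : i ≠ j) : (rG i j hij).val = rM i j := rfl

theorem vecMul_rM {n : ℕ} (i j : Fin n) (hij : i ≠ j) (r : Fin n → ℤ) :
    r ᵥ* rM i j = fun l => if l = i then - r i else if l = j then r j + 2 * r i else r l := by
  funext l
  simp only [vecMul, dotProduct, rM, of_apply]
  by_cases h : l = i
  · subst h
    have : ∀ a, r a * (if a = l then (if l = l then (-1 : ℤ) else if l = j then 2 else 0)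
        else if a = l then 1 else 0) = if a = l then - r a else 0 := by
      intro a
      by_cases h1 : a = l
      · subst h1; simp
      · simp [h1]
    refine (Finset.sum_congr rfl (fun b _ => this b)).trans ?_
    simp
  · by_cases h2 : l = j
    · subst h2
      have : ∀ a, r a * (if a = i then (if l = i then (-1 : ℤ) else if l = l then 2 else 0)
          else if a = l then 1 else 0) =
          (if a = l then r a else 0) + (if a = i then 2 * r a else 0) := by
        intro a
        by_cases h1 : a = i
        · subst h1; simp [h, Ne.symm h]; ring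
        · by_cases h3 : a = l
          · subst h3; simp [h]
          · simp [h1, h3]
      refine (Finset.sum_congr rfl (fun b _ => this b)).trans ?_
      simp [Finset.sum_add_distrib, h]
    · have : ∀ a, r a * (if a = i then (if l = i then (-1 : ℤ) else if l = j then 2 else 0)
          else if a = l then 1 else 0) = if a = l then r a else 0 := by
        intro a
        by_cases h1 : a = i
        · subst h1; simp [h, h2, Ne.symm h]
        · by_cases h3 : a = l
          · subst h3; simp [h]
          · simp [h1, h3]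
      simp only [this]
      simp [h, h2]

theorem rG_base {m : ℕ} (i : Fin m) (h : i.castSucc ≠ i.succ) :
    rG i.castSucc i.succ h ∈ (rhoV m).range := by
  refine ⟨PresentedGroup.of (Gen.sigma i) * PresentedGroup.of (Gen.tau i), ?_⟩
  rw [map_mul, rhoV_sigma, rhoV_tau]
  apply Units.ext
  rw [Units.val_mul, sMat_val, tMat_val, rG_val, blk_mul_blk]
  apply eq_of_mulVec
  intro v
  rw [blk_mulVec, rM_mulVec _ _ h]
  funext x
  by_cases h1 : x = i.castSucc
  · subst h1; simp
  · by_cases h2 : x = i.succ
    · subst h2; simp [h.symm]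
    · simp [h1, h2]

theorem rG_conj {n : ℕ} (i j : Fin n) (hij : i ≠ j) (π : Equiv.Perm (Fin n))
    (h' : π i ≠ π j) : pG π * rG i j hij * (pG π)⁻¹ = rG (π i) (π j) h' := by
  rw [mul_inv_eq_iff_eq_mul]
  apply Units.ext
  apply eq_of_mulVec
  intro v
  simp only [Units.val_mul, ← mulVec_mulVec, rG_val, pG_val, pM_mulVec, rM_mulVec i j hij,
    rM_mulVec _ _ h']
  funext a
  by_cases h : a = π i
  · subst h; simp
  · have : π.symm a ≠ i := by
      intro e; apply h; rw [← e]; simp
    simp [h, this]

theorem exists_perm {n : ℕ} (a b i j : Fin n) (hab : a ≠ b) (hij : i ≠ j) :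
    ∃ π : Equiv.Perm (Fin n), π a = i ∧ π b = j := by
  refine ⟨Equiv.swap (Equiv.swap a i b) j * Equiv.swap a i, ?_, ?_⟩
  · rw [Equiv.Perm.mul_apply, Equiv.swap_apply_left]
    apply Equiv.swap_apply_of_ne_of_ne _ hij
    intro h
    have : Equiv.swap a i b = Equiv.swap a i a := by rw [Equiv.swap_apply_left, ← h]
    exact hab ((Equiv.swap a i).injective this).symm
  · rw [Equiv.Perm.mul_apply, Equiv.swap_apply_left]

theorem rG_mem {m : ℕ} (i j : Fin (m + 1)) (hij : i ≠ j) : rG i j hij ∈ (rhoV m).range := by
  obtain ⟨m, rfl⟩ : ∃ m', m = m' + 1 := by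
    rcases m with _ | m
    · exact absurd (Fin.ext (by omega)) hij
    · exact ⟨m, rfl⟩
  have h0 : (0 : Fin (m + 1)).castSucc ≠ (0 : Fin (m + 1)).succ := (Fin.castSucc_lt_succ).ne
  obtain ⟨π, rfl, rfl⟩ := exists_perm _ _ i j h0 hij
  rw [← rG_conj _ _ h0 π hij]
  exact mul_mem (mul_mem (pG_mem π) (rG_base 0 h0)) (inv_mem (pG_mem π))

/-! ### The reduction -/

/-- `M` fixes `(1, ..., 1)`, is congruent to `I` modulo `2` and its rows numbered by `D` are those of
the identity matrix. -/
structure PK {m : ℕ} (D : Finset (Fin (m + 1))) (M : GL (Fin (m + 1)) ℤ) : Prop where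
  one : M.val *ᵥ 1 = 1
  mod : ∀ i j, ((M.val i j : ℤ) : ZMod 2) = if i = j then 1 else 0
  row : ∀ l ∈ D, M.val l = Pi.single l 1

theorem mul_row {m : ℕ} (M X : GL (Fin (m + 1)) ℤ) (k : Fin (m + 1)) :
    (M * X).val k = M.val k ᵥ* X.val := by
  rw [Units.val_mul, Matrix.mul_apply_eq_vecMul]

theorem PK.mul {m : ℕ} {D : Finset (Fin (m + 1))} {M X : GL (Fin (m + 1)) ℤ} (hM : PK D M)
    (hX : PK D X) : PK D (M * X) where
  one := by rw [Units.val_mul, ← mulVec_mulVec, hX.one, hM.one]
  mod i j := by
    rw [Units.val_mul, Matrix.mul_apply]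
    push_cast
    simp [hM.mod, hX.mod]
  row l hl := by
    rw [mul_row, hM.row l hl, Matrix.single_one_vecMul, ← hX.row l hl]
    rfl

theorem PK.rG {m : ℕ} {D : Finset (Fin (m + 1))} (i j : Fin (m + 1)) (hij : i ≠ j)
    (hi : i ∉ D) : PK D (rG i j hij) where
  one := by
    rw [rG_val, rM_mulVec i j hij]
    funext a
    by_cases h : a = i <;> simp [h]
  mod a b := by
    rw [rG_val, rM, of_apply]
    by_cases h : a = i
    · subst h
      by_cases h1 : b = a
      · subst h1; simp
      · by_cases h2 : b = j
        · subst h2; simp [h1, Ne.symm h1]; decide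
        · simp [h1, h2, Ne.symm h1]
    · by_cases h1 : a = b
      · subst h1; simp [h]
      · simp [h, h1]
  row l hl := by
    have h : l ≠ i := by rintro rfl; exact hi hl
    funext b
    rw [rG_val, rM, of_apply]
    by_cases h1 : l = b
    · subst h1; simp [h]
    · simp [h, h1, Ne.symm h1]

theorem PK.sum_row {m : ℕ} {D : Finset (Fin (m + 1))} {M : GL (Fin (m + 1)) ℤ} (hM : PK D M)
    (k : Fin (m + 1)) : ∑ j, M.val k j = 1 := by
  have := congrFun hM.one k
  simpa [mulVec, dotProduct] using this

theorem PK.odd {m : ℕ} {D : Finset (Fin (m + 1))} {M : GL (Fin (m + 1)) ℤ} (hM : PK D M)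
    (k : Fin (m + 1)) : M.val k k % 2 = 1 := by
  have := hM.mod k k
  rw [if_pos rfl] at this
  have h2 : ((M.val k k : ℤ) : ZMod 2) = ((1 : ℤ) : ZMod 2) := by rw [this]; norm_num
  rw [ZMod.intCast_eq_intCast_iff'] at h2
  simpa using h2

theorem PK.even {m : ℕ} {D : Finset (Fin (m + 1))} {M : GL (Fin (m + 1)) ℤ} (hM : PK D M)
    (k i : Fin (m + 1)) (hi : i ≠ k) : M.val k i % 2 = 0 := by
  have := hM.mod k i
  rw [if_neg (Ne.symm hi)] at this
  have h2 : ((M.val k i : ℤ) : ZMod 2) = ((0 : ℤ) : ZMod 2) := by rw [this]; norm_num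
  rw [ZMod.intCast_eq_intCast_iff'] at h2
  simpa using h2

theorem PK.one_mem {m : ℕ} (D : Finset (Fin (m + 1))) : PK D (1 : GL (Fin (m + 1)) ℤ) where
  one := by simp
  mod i j := by
    by_cases hij : i = j
    · subst hij; simp
    · simp [hij]
  row l _ := by
    funext b
    by_cases h1 : l = b
    · subst h1; simp
    · simp [h1, Ne.symm h1]

theorem step {n : ℕ} (T : Finset (Fin n)) (r : Fin n → ℤ) (i j : Fin n) (hij : i ≠ j)
    (hj : j ∈ T) (h : (r j + 2 * r i).natAbs < (r j).natAbs) :
    ∑ l ∈ T, ((r ᵥ* rM i j) l).natAbs < ∑ l ∈ T, (r l).natAbs := by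
  rw [vecMul_rM i j hij]
  apply Finset.sum_lt_sum
  · intro l _
    by_cases h1 : l = i
    · subst h1; simp
    · by_cases h2 : l = j
      · subst h2; simp only [h1, if_false, if_true]; exact h.le
      · simp [h1, h2]
  · refine ⟨j, hj, ?_⟩
    simp only [hij.symm, if_false, if_true]
    exact h

/-- The first row: a matrix congruent to `I` and fixing `(1, ..., 1)` can be multiplied by an
element of the image to have its row `s` equal to the one of the identity matrix. -/
theorem lemA {m : ℕ} (s : Fin (m + 1)) (N : ℕ) : ∀ M : GL (Fin (m + 1)) ℤ, PK ∅ M →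
    ∑ l, (M.val s l).natAbs ≤ N →
    ∃ X : GL (Fin (m + 1)) ℤ, PK ∅ X ∧ X ∈ (rhoV m).range ∧ (M * X).val s = Pi.single s 1 := by
  induction N with
  | zero =>
    intro M hM h
    exfalso
    have h1 := hM.sum_row s
    have h2 : ∀ l, M.val s l = 0 := by
      intro l
      have := Finset.sum_eq_zero_iff.mp (Nat.le_zero.mp h) l (Finset.mem_univ l)
      exact Int.natAbs_eq_zero.mp this
    rw [Finset.sum_eq_zero (fun l _ => h2 l)] at h1
    exact zero_ne_one h1
  | succ N ih =>
    intro M hM h
    -- a reduction step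
    have red : ∀ (i j : Fin (m + 1)) (hij : i ≠ j),
        (M.val s j + 2 * M.val s i).natAbs < (M.val s j).natAbs →
        ∃ X : GL (Fin (m + 1)) ℤ, PK ∅ X ∧ X ∈ (rhoV m).range ∧
          (M * X).val s = Pi.single s 1 := by
      intro i j hij hlt
      have h1 := step Finset.univ (M.val s) i j hij (Finset.mem_univ j) hlt
      have h2 : PK ∅ (rG i j hij) := PK.rG i j hij (Finset.notMem_empty i)
      obtain ⟨X, hX1, hX2, hX3⟩ := ih (M * rG i j hij) (hM.mul h2) (by
        rw [mul_row, rG_val]; omega)
      refine ⟨rG i j hij * X, h2.mul hX1, mul_mem (rG_mem i j hij) hX2, ?_⟩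
      rw [← mul_assoc]; exact hX3
    have hodd : M.val s s % 2 = 1 := hM.odd s
    have heven : ∀ i, i ≠ s → M.val s i % 2 = 0 := hM.even s
    by_cases hex : ∃ i, i ≠ s ∧ ((0 < M.val s i ∧ M.val s s < 0) ∨
        (M.val s i < 0 ∧ 0 < M.val s s))
    · obtain ⟨i, his, hs⟩ := hex
      have h1 := heven i his
      by_cases hlt : (M.val s i).natAbs < (M.val s s).natAbs
      · exact red i s his (by omega)
      · exact red s i his.symm (by omega)
    · push Not at hex
      have hsum := hM.sum_row s
      rw [← Finset.add_sum_erase _ _ (Finset.mem_univ s)] at hsum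
      rcases lt_trichotomy (M.val s s) 0 with hneg | hzero | hpos
      · exfalso
        have : ∑ x ∈ Finset.univ.erase s, M.val s x ≤ 0 := by
          apply Finset.sum_nonpos
          intro i hi
          have hi' := (Finset.mem_erase.mp hi).1
          by_contra hc
          have := (hex i hi').1 (by omega)
          omega
        omega
      · omega
      · have hnn : ∀ i ∈ Finset.univ.erase s, 0 ≤ M.val s i := by
          intro i hi
          have hi' := (Finset.mem_erase.mp hi).1
          by_contra hc
          have := (hex i hi').2 (by omega)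
          omega
        have hsn := Finset.sum_nonneg hnn
        have h0 : ∑ x ∈ Finset.univ.erase s, M.val s x = 0 := by omega
        have h1 : M.val s s = 1 := by omega
        rw [Finset.sum_eq_zero_iff_of_nonneg hnn] at h0
        refine ⟨1, PK.one_mem _, one_mem _, ?_⟩
        rw [mul_one]
        funext j
        by_cases hj : j = s
        · subst hj; simpa using h1
        · rw [Pi.single_eq_of_ne hj]
          exact h0 j (Finset.mem_erase.mpr ⟨hj, Finset.mem_univ j⟩)

theorem PK.gcd {m : ℕ} {D : Finset (Fin (m + 1))} {M : GL (Fin (m + 1)) ℤ} (hM : PK D M)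
    (k : Fin (m + 1)) (hk : k ∉ D) (h : ∀ j, j ∉ D → j ≠ k → M.val k j = 0) :
    M.val k k = 1 ∨ M.val k k = -1 := by
  have h1 : ∀ j ∈ D, (M⁻¹).val j k = 0 := by
    intro j hj
    have e1 : (M * M⁻¹).val j = (M⁻¹).val j := by
      rw [mul_row, hM.row j hj, Matrix.single_one_vecMul]
      rfl
    rw [mul_inv_cancel] at e1
    rw [← e1]
    have hjk : j ≠ k := by rintro rfl; exact hk hj
    simp [hjk]
  have h2 : (M * M⁻¹).val k k = 1 := by rw [mul_inv_cancel]; simp
  rw [Units.val_mul, Matrix.mul_apply, Finset.sum_eq_single k] at h2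
  · exact Int.isUnit_iff.mp (IsUnit.of_mul_eq_one _ h2)
  · intro j _ hj
    by_cases hjD : j ∈ D
    · rw [h1 j hjD, mul_zero]
    · rw [h j hjD hj, zero_mul]
  · intro hh; exact absurd (Finset.mem_univ k) hh

/-- The other rows: if the rows in `D` (containing `s`) are those of the identity matrix and
`k ∉ D`, one can multiply by an element of the image in order to have also the row `k` right. -/
theorem lemB {m : ℕ} (D : Finset (Fin (m + 1))) (s k : Fin (m + 1)) (hs : s ∈ D) (hk : k ∉ D)
    (N : ℕ) : ∀ M : GL (Fin (m + 1)) ℤ, PK D M →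
    ∑ l ∈ Finset.univ.erase s, (M.val k l).natAbs ≤ N →
    ∃ X : GL (Fin (m + 1)) ℤ, PK D X ∧ X ∈ (rhoV m).range ∧ (M * X).val k = Pi.single k 1 := by
  have hsk : s ≠ k := by rintro rfl; exact hk hs
  induction N with
  | zero =>
    intro M hM h
    exfalso
    have h1 := hM.odd k
    have h2 := Finset.sum_eq_zero_iff.mp (Nat.le_zero.mp h) k
      (Finset.mem_erase.mpr ⟨hsk.symm, Finset.mem_univ k⟩)
    omega
  | succ N ih =>
    intro M hM h
    -- a reduction step
    have red : ∀ (i j : Fin (m + 1)) (_ : i ≠ j) (_ : i ∉ D) (_ : j ≠ s),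
        M.val k i ≠ 0 → (M.val k i).natAbs < (M.val k j).natAbs →
        ∃ X : GL (Fin (m + 1)) ℤ, PK D X ∧ X ∈ (rhoV m).range ∧
          (M * X).val k = Pi.single k 1 := by
      intro i j hij hi hj h0 hlt
      have his : i ≠ s := by rintro rfl; exact hi hs
      have hjT : j ∈ Finset.univ.erase s := Finset.mem_erase.mpr ⟨hj, Finset.mem_univ j⟩
      have h2 : PK D (rG i j hij) := PK.rG i j hij hi
      by_cases hc : (M.val k j + 2 * M.val k i).natAbs < (M.val k j).natAbs
      · have h1 := step (Finset.univ.erase s) (M.val k) i j hij hjT hc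
        obtain ⟨X, hX1, hX2, hX3⟩ := ih (M * rG i j hij) (hM.mul h2) (by
          rw [mul_row, rG_val]; omega)
        refine ⟨rG i j hij * X, h2.mul hX1, mul_mem (rG_mem i j hij) hX2, ?_⟩
        rw [← mul_assoc]; exact hX3
      · have h3 : PK D (rG i s his) := PK.rG i s his hi
        have e : (M * rG i s his).val k = fun l => if l = i then - M.val k i else
            if l = s then M.val k s + 2 * M.val k i else M.val k l := by
          rw [mul_row, rG_val, vecMul_rM i s his]
        have e1 : (M * rG i s his).val k j = M.val k j := by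
          rw [e]; simp [hij.symm, hj]
        have e2 : (M * rG i s his).val k i = - M.val k i := by
          rw [e]; simp
        have h1 := step (Finset.univ.erase s) ((M * rG i s his).val k) i j hij hjT (by
          rw [e1, e2]; omega)
        have e3 : ∑ l ∈ Finset.univ.erase s, ((M * rG i s his).val k l).natAbs =
            ∑ l ∈ Finset.univ.erase s, (M.val k l).natAbs := by
          apply Finset.sum_congr rfl
          intro l hl
          have hl' := (Finset.mem_erase.mp hl).1
          rw [e]
          by_cases hli : l = i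
          · subst hli; simp
          · simp [hli, hl']
        rw [e3] at h1
        obtain ⟨X, hX1, hX2, hX3⟩ := ih (M * rG i s his * rG i j hij) ((hM.mul h3).mul h2) (by
          rw [mul_row, rG_val]; omega)
        refine ⟨rG i s his * (rG i j hij * X), h3.mul (h2.mul hX1),
          mul_mem (rG_mem i s his) (mul_mem (rG_mem i j hij) hX2), ?_⟩
        rw [← mul_assoc, ← mul_assoc]; exact hX3
    have hodd : M.val k k % 2 = 1 := hM.odd k
    have heven : ∀ i, i ≠ k → M.val k i % 2 = 0 := hM.even k
    by_cases hex : ∃ j, j ∉ D ∧ j ≠ k ∧ M.val k j ≠ 0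
    · obtain ⟨j, hjD, hjk, hj0⟩ := hex
      have hjs : j ≠ s := by rintro rfl; exact hjD hs
      have h1 := heven j hjk
      by_cases hlt : (M.val k k).natAbs < (M.val k j).natAbs
      · exact red k j hjk.symm hk hjs (by omega) hlt
      · exact red j k hjk hjD hsk.symm hj0 (by omega)
    · push Not at hex
      have hunit := hM.gcd k hk hex
      by_cases hex2 : ∃ j, j ∈ D ∧ j ≠ s ∧ M.val k j ≠ 0
      · obtain ⟨j, hjD, hjs, hj0⟩ := hex2
        have hjk : j ≠ k := by rintro rfl; exact hk hjD
        have h1 := heven j hjk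
        exact red k j hjk.symm hk hjs (by omega) (by omega)
      · push Not at hex2
        have hzero : ∀ j, j ≠ k → j ≠ s → M.val k j = 0 := by
          intro j hjk hjs
          by_cases hjD : j ∈ D
          · exact hex2 j hjD hjs
          · exact hex j hjD hjk
        have hsum := hM.sum_row k
        rw [← Finset.add_sum_erase _ _ (Finset.mem_univ s),
          ← Finset.add_sum_erase (Finset.univ.erase s) _
            (Finset.mem_erase.mpr ⟨hsk.symm, Finset.mem_univ k⟩),
          Finset.sum_eq_zero (s := (Finset.univ.erase s).erase k), add_zero] at hsum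
        · rcases hunit with h1 | h1
          · refine ⟨1, PK.one_mem _, one_mem _, ?_⟩
            rw [mul_one]
            funext j
            by_cases hjk : j = k
            · subst hjk; simpa using h1
            · rw [Pi.single_eq_of_ne hjk]
              by_cases hjs : j = s
              · subst hjs; omega
              · exact hzero j hjk hjs
          · refine ⟨rG k s hsk.symm, PK.rG k s _ hk, rG_mem _ _ _, ?_⟩
            rw [mul_row, rG_val, vecMul_rM k s hsk.symm]
            funext j
            by_cases hjk : j = k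
            · subst hjk; simp [h1]
            · rw [Pi.single_eq_of_ne hjk]
              by_cases hjs : j = s
              · subst hjs; simp [hjk]; omega
              · simp [hjk, hjs, hzero j hjk hjs]
        · intro j hj
          have hj1 := Finset.mem_erase.mp hj
          have hj2 := Finset.mem_erase.mp hj1.2
          exact hzero j hj1.1 hj2.1

theorem mem_of_PK {m : ℕ} (s : Fin (m + 1)) (N : ℕ) : ∀ D : Finset (Fin (m + 1)), s ∈ D →
    Dᶜ.card = N → ∀ M : GL (Fin (m + 1)) ℤ, PK D M → M ∈ (rhoV m).range := by
  induction N with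
  | zero =>
    intro D _ hD M hM
    have : M = 1 := by
      apply Units.ext
      funext l
      have hl : l ∈ D := by
        by_contra hl
        rw [Finset.card_eq_zero] at hD
        have := Finset.mem_compl.mpr hl
        rw [hD] at this
        exact absurd this (Finset.notMem_empty l)
      rw [hM.row l hl, (PK.one_mem D).row l hl]
    rw [this]
    exact one_mem _
  | succ N ih =>
    intro D hs hD M hM
    obtain ⟨k, hk⟩ : Dᶜ.Nonempty := by
      rw [← Finset.card_pos]; omega
    have hk' : k ∉ D := Finset.mem_compl.mp hk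
    obtain ⟨X, hX1, hX2, hX3⟩ := lemB D s k hs hk' _ M hM le_rfl
    have h1 : PK (insert k D) (M * X) := by
      refine ⟨(hM.mul hX1).one, (hM.mul hX1).mod, ?_⟩
      intro l hl
      rcases Finset.mem_insert.mp hl with rfl | hl
      · exact hX3
      · exact (hM.mul hX1).row l hl
    have h2 : (insert k D)ᶜ.card = N := by
      rw [Finset.compl_insert, Finset.card_erase_of_mem hk, hD]; rfl
    have h3 := ih (insert k D) (Finset.mem_insert_of_mem hs) h2 (M * X) h1
    have h4 := mul_mem h3 (inv_mem hX2)
    rwa [mul_inv_cancel_right] at h4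

theorem mem_of_PK_empty {m : ℕ} (M : GL (Fin (m + 1)) ℤ) (hM : PK ∅ M) :
    M ∈ (rhoV m).range := by
  obtain ⟨X, hX1, hX2, hX3⟩ := lemA 0 _ M hM le_rfl
  have h1 : PK {0} (M * X) := by
    refine ⟨(hM.mul hX1).one, (hM.mul hX1).mod, ?_⟩
    intro l hl
    rw [Finset.mem_singleton.mp hl]
    exact hX3
  have h3 := mem_of_PK 0 _ {0} (Finset.mem_singleton_self 0) rfl (M * X) h1
  have h4 := mul_mem h3 (inv_mem hX2)
  rwa [mul_inv_cancel_right] at h4

/-! ### The image is contained in the group described -/

/-- `M` fixes the vector `(1, ..., 1)` and its reduction modulo `2` is the permutation matrix of a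
permutation `π`. -/
def Crit {n : ℕ} (M : GL (Fin n) ℤ) : Prop :=
  M.val *ᵥ 1 = 1 ∧ ∃ π : Equiv.Perm (Fin n), ∀ i j, ((M.val i j : ℤ) : ZMod 2) =
    if i = π j then 1 else 0

theorem Crit.mul {n : ℕ} {M X : GL (Fin n) ℤ} (hM : Crit M) (hX : Crit X) : Crit (M * X) := by
  obtain ⟨h1, π, hπ⟩ := hM
  obtain ⟨h2, ρ, hρ⟩ := hX
  refine ⟨by rw [Units.val_mul, ← mulVec_mulVec, h2, h1], π * ρ, ?_⟩
  intro i j
  rw [Units.val_mul, Matrix.mul_apply]
  push_cast
  simp only [hπ, hρ, mul_ite, mul_one, mul_zero, Finset.sum_ite_eq', Finset.mem_univ, if_true]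
  rfl

theorem Crit.blk {m : ℕ} (M : GL (Fin (m + 1)) ℤ) (i : Fin m) (a b c d : ℤ)
    (hM : M.val = blk i a b c d) (h1 : a + b = 1) (h2 : c + d = 1) (ha : (a : ZMod 2) = 0)
    (hb : (b : ZMod 2) = 1) (hc : (c : ZMod 2) = 1) (hd : (d : ZMod 2) = 0) : Crit M := by
  have hne : i.castSucc ≠ i.succ := (Fin.castSucc_lt_succ).ne
  refine ⟨?_, Equiv.swap i.castSucc i.succ, ?_⟩
  · rw [hM, blk_mulVec]
    funext x
    by_cases e1 : x = i.castSucc
    · subst e1; simp [h1]
    · by_cases e2 : x = i.succ
      · subst e2; simp [hne.symm, h2]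
      · simp [e1, e2]
  · intro x y
    rw [hM]
    simp only [VirtualBurauImage.blk, of_apply]
    by_cases e1 : x = i.castSucc
    · subst e1
      by_cases e2 : y = i.castSucc
      · subst e2; simp [ha, hne]
      · by_cases e3 : y = i.succ
        · subst e3; simp [hb, hne.symm]
        · simp [e2, e3, hne, Ne.symm e2, Equiv.swap_apply_of_ne_of_ne]
    · by_cases e2 : x = i.succ
      · subst e2
        by_cases e4 : y = i.castSucc
        · subst e4; simp [hc, hne.symm]
        · by_cases e3 : y = i.succ
          · subst e3; simp [hd, hne.symm]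
          · simp [e4, e3, hne.symm, Ne.symm e3, Equiv.swap_apply_of_ne_of_ne]
      · by_cases e4 : y = i.castSucc
        · subst e4; simp [e1, e2]
        · by_cases e3 : y = i.succ
          · subst e3; simp [e1, e2]
          · by_cases e5 : x = y
            · subst e5; simp [e1, e2, Equiv.swap_apply_of_ne_of_ne]
            · simp [e1, e2, e3, e4, e5, Equiv.swap_apply_of_ne_of_ne]

theorem Crit.gen {m : ℕ} (g : Gen m) : Crit (genMat g) ∧ Crit (genMat g)⁻¹ := by
  cases g with
  | sigma i =>
    refine ⟨Crit.blk _ i 2 (-1) 1 0 rfl ?_ ?_ ?_ ?_ ?_ ?_,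
      Crit.blk _ i 0 1 (-1) 2 rfl ?_ ?_ ?_ ?_ ?_ ?_⟩ <;> decide
  | tau i =>
    refine ⟨Crit.blk _ i 0 1 1 0 rfl ?_ ?_ ?_ ?_ ?_ ?_,
      Crit.blk _ i 0 1 1 0 rfl ?_ ?_ ?_ ?_ ?_ ?_⟩ <;> decide

theorem crit_of_mem {m : ℕ} (M : GL (Fin (m + 1)) ℤ) (h : M ∈ (rhoV m).range) : Crit M := by
  obtain ⟨w, rfl⟩ := h
  induction w using PresentedGroup.induction_on with
  | H z =>
    have hof : ∀ x : Gen m, rhoV m (PresentedGroup.mk _ (FreeGroup.of x)) = genMat x :=
      fun x => PresentedGroup.toGroup.of _
    induction z using FreeGroup.induction_on with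
    | C1 =>
      rw [map_one, map_one]
      refine ⟨by simp, 1, ?_⟩
      intro i j
      by_cases hij : i = j
      · subst hij; simp
      · simp [hij]
    | of x =>
      rw [hof]; exact (Crit.gen x).1
    | inv_of x ih =>
      rw [map_inv, map_inv, hof]; exact (Crit.gen x).2
    | mul x y hx hy =>
      rw [map_mul, map_mul]
      exact hx.mul hy

/-- **The image of the virtual integral Burau representation** `ρ_v : vB_n → GL_n(ℤ)`, for
`n = m + 1`: a matrix `M` of `GL_n(ℤ)` lies in it if and only if `M` fixes the column vector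
`(1, ..., 1)` and `M` modulo `2` is a permutation matrix. -/
theorem result (m : ℕ) (M : GL (Fin (m + 1)) ℤ) :
    M ∈ (rhoV m).range ↔
      M.val *ᵥ 1 = 1 ∧ ∃ π : Equiv.Perm (Fin (m + 1)), ∀ i j,
        ((M.val i j : ℤ) : ZMod 2) = if i = π j then 1 else 0 := by
  refine ⟨crit_of_mem M, ?_⟩
  rintro ⟨h1, π, hπ⟩
  have h2 : PK ∅ ((pG π)⁻¹ * M) := by
    rw [← map_inv]
    constructor
    · rw [Units.val_mul, ← mulVec_mulVec, h1, pG_val, pM_mulVec]
      rfl
    · intro i j
      rw [Units.val_mul, Matrix.mul_apply, pG_val]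
      have : ∀ x, pM π⁻¹ i x * M.val x j = if x = π i then M.val x j else 0 := by
        intro x
        rw [pM, of_apply]
        by_cases hx : x = π i
        · subst hx; simp
        · have : i ≠ π.symm x := by
            rintro rfl; exact hx (by simp)
          simp [hx, this]
      rw [Finset.sum_congr rfl (fun x _ => this x)]
      simp [hπ]
    · intro l hl; exact absurd hl (Finset.notMem_empty l)
  have h3 := mul_mem (pG_mem π) (mem_of_PK_empty _ h2)
  rwa [mul_inv_cancel_left] at h3

end Pool.Agent.Results.MP_e5baee_al.VirtualBurauImage
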